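import Pool.Agent.X172.GR.Stm

/-!
# GR_COM : commuting readable words are equivalent
-/

namespace Pool.Agent.X41.GR

open Pool.Agent.X172.GR

variable {n : ℕ} {T : ℕ → Fin 6}

theorem rd_get {i : ℕ} {w : List Ltr} (h : Rd T i w) (j : ℕ) (hj : j < w.length) :
    (w[j]?).map Prod.fst = some (T (i + j)) := by
  induction w generalizing i j with
  | nil => simp at hj
  | cons a w ih =>
    cases j with
    | zero => simpa using h.1
    | succ j =>
      have := ih h.2 j (by simpa using hj)
      rw [List.getElem?_cons_succ, this]
      congr 2; ring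

theorem rd_append {i : ℕ} {u v : List Ltr} (h : Rd T i (u ++ v)) : Rd T i u ∧ Rd T (i + u.length) v := by
  induction u generalizing i with
  | nil => exact ⟨trivial, by simpa using h⟩
  | cons a u ih =>
    obtain ⟨h1, h2⟩ := ih h.2
    refine ⟨⟨h.1, h1⟩, ?_⟩
    have e : i + (a :: u).length = i + 1 + u.length := by simp; ring
    rw [e]; exact h2

theorem readable_prefix {p w : List Ltr} (h : Readable T w) (hp : p <+: w) : Readable T p := by
  obtain ⟨i, hi⟩ := h
  obtain ⟨v, rfl⟩ := hp
  exact ⟨i, (rd_append hi).1⟩

theorem readable_suffix {p w : List Ltr} (h : Readable T w) (hp : p <:+ w) : Readable T p := by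
  obtain ⟨i, hi⟩ := h
  obtain ⟨v, rfl⟩ := hp
  exact ⟨_, (rd_append hi).2⟩

theorem mem_ne5 (hT : Ty n T) {w : List Ltr} (h : Readable T w) {a : Ltr} (ha : a ∈ w) : a.1 ≠ 5 := by
  obtain ⟨i, hi⟩ := h
  induction w generalizing i with
  | nil => simp at ha
  | cons b w ih =>
    rcases List.mem_cons.1 ha with rfl | ha
    · rw [hi.1]; exact hT.ne5 i
    · exact ih ha (i + 1) hi.2

/-- prefix data -/
theorem pre {s t : List Ltr} (h : LE n T (s ++ t ++ [((5 : Fin 6), false)]) (t ++ s ++ [((5 : Fin 6), false)])) :
    s ++ t = t ++ s ∨ ∃ p, p <+: s ++ t ∧ p <+: t ++ s ∧ (¬ Readable T p ∨ p.length = n) := by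
  rcases h with h | ⟨p, h1, h2, h3⟩
  · left; exact List.append_cancel_right h
  · rcases List.prefix_concat_iff.1 h1 with e1 | e1
    · left
      rcases List.prefix_concat_iff.1 h2 with e2 | e2
      · exact List.append_cancel_right (e1.symm.trans e2)
      · exfalso
        have := e2.length_le
        rw [e1] at this
        simp at this
        omega
    · rcases List.prefix_concat_iff.1 h2 with e2 | e2
      · exfalso
        have := e1.length_le
        rw [e2] at this
        simp at this
        omega
      · right; exact ⟨p, e1, e2, h3⟩

/-- suffix data -/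
theorem suf (hT : Ty n T) {s t : List Ltr} (hs : Readable T s) (ht : Readable T t)
    (h : RE n T (((5 : Fin 6), false) :: (s ++ t)) (((5 : Fin 6), false) :: (t ++ s))) :
    s ++ t = t ++ s ∨ ∃ p, p <:+ s ++ t ∧ p <:+ t ++ s ∧ (¬ Readable T p ∨ p.length = n) := by
  rcases h with h | ⟨q, h1, h2, h3⟩ | ⟨h, m, z, z', h1, h2, h3⟩
  · left; exact (List.cons.inj h).2
  · rcases List.suffix_cons_iff.1 h1 with e1 | e1
    · left
      rcases List.suffix_cons_iff.1 h2 with e2 | e2
      · exact (List.cons.inj (e1.symm.trans e2)).2
      · exfalso
        have := e2.length_le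
        rw [e1] at this
        simp at this
        omega
    · rcases List.suffix_cons_iff.1 h2 with e2 | e2
      · exfalso
        have := e1.length_le
        rw [e2] at this
        simp at this
        omega
      · right; exact ⟨q, e1, e2, Or.inl h3⟩
  · right
    have key : ∀ (s t z : List Ltr), Readable T s → Readable T t →
        Suf n T (((5 : Fin 6), false) :: (s ++ t)) h m z → h ≠ some (5, true) ∧ z <:+ s ++ t ∧ z.length = n := by
      intro s t z hs ht ⟨v, hv, hnv, hm, hz, hzn, hh⟩
      have hsuf : v <:+ (((5 : Fin 6), false) :: (s ++ t)) := by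
        rcases hh with ⟨_, e⟩ | ⟨a, y, _, e, _⟩
        · rw [e]
        · rw [e]; exact ⟨y ++ [a], by simp⟩
      have hzs := hz.trans hsuf
      have hzr := readable_suffix hv hz
      refine ⟨?_, ?_, hzn⟩
      · intro h5
        rcases hh with ⟨e, _⟩ | ⟨a, y, e0, e, _⟩
        · rw [e] at h5; cases h5
        · rw [h5] at e0
          have ea : a = (5, true) := (Option.some.inj e0).symm
          have hmem : ((5 : Fin 6), true) ∈ (((5 : Fin 6), false) :: (s ++ t)) := by
            rw [e, ea]; simp
          rcases List.mem_cons.1 hmem with h' | h'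
          · exact absurd h' (by decide)
          · rcases List.mem_append.1 h' with h' | h'
            · exact mem_ne5 hT hs h' rfl
            · exact mem_ne5 hT ht h' rfl
      · rcases List.suffix_cons_iff.1 hzs with e | e
        · exfalso
          exact mem_ne5 hT hzr (a := (5, false)) (by rw [e]; simp) rfl
        · exact e
    obtain ⟨k1, k2, k3⟩ := key s t z hs ht h1
    obtain ⟨k1', k2', k3'⟩ := key t s z' ht hs h2
    rcases h3 with h3 | ⟨h3, _⟩
    · subst h3
      exact ⟨z, k2, k2', Or.inr k3⟩
    · exact absurd h3 k1

theorem len_lt_pre {s t p : List Ltr} (hs : Readable T s) (hp : p <+: s ++ t) (hr : ¬ Readable T p) :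
    s.length < p.length := by
  by_contra hc
  push Not at hc
  exact hr (readable_prefix hs (List.prefix_of_prefix_length_le hp (List.prefix_append s t) hc))

theorem len_lt_suf {s t p : List Ltr} (ht : Readable T t) (hp : p <:+ s ++ t) (hr : ¬ Readable T p) :
    t.length < p.length := by
  by_contra hc
  push Not at hc
  exact hr (readable_suffix ht (List.suffix_of_suffix_length_le hp (List.suffix_append s t) hc))

theorem pre_take {s t : List Ltr} (hs : Readable T s) (ht : Readable T t)
    (h : LE n T (s ++ t ++ [((5 : Fin 6), false)]) (t ++ s ++ [((5 : Fin 6), false)])) (m : ℕ)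
    (hm : m ≤ n) (hm2 : m ≤ max s.length t.length + 1) : (s ++ t).take m = (t ++ s).take m := by
  rcases pre h with h | ⟨p, h1, h2, h3⟩
  · rw [h]
  · have hmp : m ≤ p.length := by
      rcases h3 with h3 | h3
      · have := len_lt_pre hs h1 h3
        have := len_lt_pre ht h2 h3
        omega
      · omega
    have e1 := List.prefix_iff_eq_take.1 h1
    have e2 := List.prefix_iff_eq_take.1 h2
    have : (s ++ t).take p.length = (t ++ s).take p.length := e1.symm.trans e2
    have h4 := congrArg (List.take m) this
    rwa [List.take_take, List.take_take, min_eq_left hmp] at h4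

theorem suf_drop (hT : Ty n T) {s t : List Ltr} (hs : Readable T s) (ht : Readable T t)
    (h : RE n T (((5 : Fin 6), false) :: (s ++ t)) (((5 : Fin 6), false) :: (t ++ s))) (m : ℕ)
    (hm : m ≤ n) (hm2 : m ≤ max s.length t.length + 1) :
    (s ++ t).drop (s.length + t.length - m) = (t ++ s).drop (s.length + t.length - m) := by
  rcases suf hT hs ht h with h | ⟨p, h1, h2, h3⟩
  · rw [h]
  · have hmp : m ≤ p.length := by
      rcases h3 with h3 | h3
      · have := len_lt_suf ht h1 h3
        have := len_lt_suf hs h2 h3
        omega
      · omega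
    have e1 := List.suffix_iff_eq_drop.1 h1
    have e2 := List.suffix_iff_eq_drop.1 h2
    have l1 := h1.length_le
    rw [List.length_append] at e1 e2 l1
    have : (s ++ t).drop (s.length + t.length - p.length) = (t ++ s).drop (s.length + t.length - p.length) := by
      rw [add_comm t.length] at e2
      exact e1.symm.trans e2
    have h4 := congrArg (List.drop (p.length - m)) this
    rw [List.drop_drop, List.drop_drop] at h4
    have e : s.length + t.length - p.length + (p.length - m) = s.length + t.length - m := by omega
    rwa [e] at h4

/-- short commuting words of different lengths contain a square -/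
theorem noComm (hT : Ty n T) {s t : List Ltr} {β : ℕ} (ht : Rd T β t) (hs : 0 < s.length)
    (hst : s.length < t.length) (htn : t.length < n) (h : s ++ t = t ++ s) : False := by
  have P1 : ∀ j, j < t.length - s.length → T (β + j) = T (β + s.length + j) := by
    intro j hj
    have h1 := congrArg (fun l : List Ltr => (l[s.length + j]?).map Prod.fst) h
    beta_reduce at h1
    rw [List.getElem?_append_right (by omega), List.getElem?_append_left (by omega),
      Nat.add_sub_cancel_left, rd_get ht j (by omega), rd_get ht _ (by omega)] at h1
    rw [Option.some.inj h1]; congr 1; ring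
  have P2 : ∀ j, j < s.length → T (β + j) = T (β + (t.length - s.length) + j) := by
    intro j hj
    have h1 := congrArg (fun l : List Ltr => (l[j]?).map Prod.fst) h
    have h2 := congrArg (fun l : List Ltr => (l[t.length + j]?).map Prod.fst) h
    beta_reduce at h1 h2
    rw [List.getElem?_append_left (by omega), List.getElem?_append_left (by omega),
      rd_get ht j (by omega)] at h1
    rw [List.getElem?_append_right (by omega), List.getElem?_append_right (by omega),
      Nat.add_sub_cancel_left, h1, rd_get ht _ (by omega)] at h2
    rw [← Option.some.inj h2]; congr 1; omega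
  rcases le_or_gt s.length (t.length - s.length) with hc | hc
  · obtain ⟨j, hj, hne⟩ := hT.sqf β s.length hs (fun hd => absurd (Nat.le_of_dvd hs hd) (by omega))
    exact hne (P1 j (by omega))
  · obtain ⟨j, hj, hne⟩ := hT.sqf β (t.length - s.length) (by omega)
      (fun hd => absurd (Nat.le_of_dvd (by omega) hd) (by omega))
    exact hne (P2 j (by omega))

/-- a short and a long word -/
theorem shortLong (hT : Ty n T) {s t : List Ltr} {β : ℕ} (ht : Rd T β t) (hs : 0 < s.length)
    (hsn : s.length < n) (htn : n ≤ t.length) (h : (s ++ t).take n = (t ++ s).take n) : False := by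
  have P1 : ∀ j, j < n - s.length → T (β + j) = T (β + s.length + j) := by
    intro j hj
    have h1 := congrArg (fun l : List Ltr => (l[s.length + j]?).map Prod.fst) h
    beta_reduce at h1
    rw [List.getElem?_take_of_lt (by omega), List.getElem?_take_of_lt (by omega),
      List.getElem?_append_right (by omega), List.getElem?_append_left (by omega),
      Nat.add_sub_cancel_left, rd_get ht j (by omega), rd_get ht _ (by omega)] at h1
    rw [Option.some.inj h1]; congr 1; ring
  obtain ⟨j, hj, hne⟩ := hT.sqf (β + s.length) (n - s.length) (by omega)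
      (fun hd => absurd (Nat.le_of_dvd (by omega) hd) (by omega))
  apply hne
  rw [← P1 j hj, ← hT.per (β + j)]
  congr 1; omega

theorem idx (hn : 0 < n) (hT : Ty n T) {α β : ℕ} (h : ∀ j, j < n → T (α + j) = T (β + j)) :
    α ≡ β [MOD n] := by
  have hm := Nat.mod_lt α hn
  set j := n - 1 - α % n with hj
  have hjn : j < n := by omega
  have h1 : n ∣ α + j + 1 := by
    refine ⟨α / n + 1, ?_⟩
    have := Nat.div_add_mod α n
    have e : n * (α / n + 1) = n * (α / n) + n := by ring
    omega
  have h2 : n ∣ β + j + 1 := (hT.hash _).1 (by rw [← h j hjn]; exact (hT.hash _).2 h1)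
  have h3 : α + j + 1 ≡ β + j + 1 [MOD n] :=
    ((Nat.modEq_zero_iff_dvd.2 h1).trans (Nat.modEq_zero_iff_dvd.2 h2).symm)
  exact Nat.ModEq.add_right_cancel' j (Nat.ModEq.add_right_cancel' 1 h3)

theorem longLong (hn : 0 < n) (hT : Ty n T) {s t : List Ltr} {α β : ℕ} (hs : Rd T α s) (ht : Rd T β t)
    (hsn : n ≤ s.length) (htn : n ≤ t.length) (h : (s ++ t).take n = (t ++ s).take n)
    (h' : (s ++ t).drop (s.length + t.length - n) = (t ++ s).drop (s.length + t.length - n)) :
    E n T s t := by
  have e1 : s.take n = t.take n := by
    rwa [List.take_append_of_le_length hsn, List.take_append_of_le_length htn] at h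
  have e2 : s.drop (s.length - n) = t.drop (t.length - n) := by
    rw [List.drop_append, List.drop_append,
      List.drop_eq_nil_of_le (as := s) (i := s.length + t.length - n) (by omega),
      List.drop_eq_nil_of_le (as := t) (i := s.length + t.length - n) (by omega),
      List.nil_append, List.nil_append] at h'
    have a1 : s.length + t.length - n - s.length = t.length - n := by omega
    have a2 : s.length + t.length - n - t.length = s.length - n := by omega
    rw [a1, a2] at h'
    exact h'.symm
  have i1 : α ≡ β [MOD n] := by
    apply idx hn hT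
    intro j hj
    have h1 := congrArg (fun l : List Ltr => (l[j]?).map Prod.fst) e1
    beta_reduce at h1
    rw [List.getElem?_take_of_lt hj, List.getElem?_take_of_lt hj, rd_get hs j (by omega),
      rd_get ht j (by omega)] at h1
    exact Option.some.inj h1
  have i2 : α + (s.length - n) ≡ β + (t.length - n) [MOD n] := by
    apply idx hn hT
    intro j hj
    have h1 := congrArg (fun l : List Ltr => (l[j]?).map Prod.fst) e2
    beta_reduce at h1
    rw [List.getElem?_drop, List.getElem?_drop, rd_get hs _ (by omega), rd_get ht _ (by omega)] at h1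
    have := Option.some.inj h1
    rw [add_assoc, add_assoc, this]
  have i3 : s.length - n ≡ t.length - n [MOD n] := Nat.ModEq.add_left_cancel i1 i2
  have i4 : s.length % n = t.length % n := by
    have := i3.add_right n
    rw [Nat.sub_add_cancel hsn, Nat.sub_add_cancel htn] at this
    exact this
  refine ⟨Or.inr ⟨s.take n, List.take_prefix _ _, by rw [e1]; exact List.take_prefix _ _,
    Or.inr (by rw [List.length_take]; omega)⟩, Or.inr (Or.inr ⟨none, s.length % n,
      s.drop (s.length - n), s.drop (s.length - n), ?_, ?_, Or.inl rfl⟩)⟩
  · exact ⟨s, ⟨α, hs⟩, hsn, rfl, List.drop_suffix _ _, by rw [List.length_drop]; omega, Or.inl ⟨rfl, rfl⟩⟩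
  · exact ⟨t, ⟨β, ht⟩, htn, i4.symm, by rw [e2]; exact List.drop_suffix _ _,
      by rw [List.length_drop]; omega, Or.inl ⟨rfl, rfl⟩⟩

theorem t : S_COM := by
  intro n T hn hT s t hs0 ht0 hs ht hL hR
  have hs1 : 0 < s.length := List.length_pos_iff.2 hs0
  have ht1 : 0 < t.length := List.length_pos_iff.2 ht0
  obtain ⟨α, hα⟩ := id hs
  obtain ⟨β, hβ⟩ := id ht
  rcases lt_or_ge s.length n with a | a <;> rcases lt_or_ge t.length n with b | b
  · -- both short
    have hp := pre_take hs ht hL (max s.length t.length + 1) (by omega) le_rfl
    have hq := suf_drop hT hs ht hR (max s.length t.length + 1) (by omega) le_rfl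
    have hst : s ++ t = t ++ s := by
      rw [← List.take_append_drop (max s.length t.length + 1) (s ++ t),
        ← List.take_append_drop (max s.length t.length + 1) (t ++ s), hp]
      congr 1
      have := congrArg (List.drop (max s.length t.length + 1 -
        (s.length + t.length - (max s.length t.length + 1)))) hq
      rw [List.drop_drop, List.drop_drop] at this
      have e : s.length + t.length - (max s.length t.length + 1) + (max s.length t.length + 1 -
        (s.length + t.length - (max s.length t.length + 1))) = max s.length t.length + 1 := by omega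
      rwa [e] at this
    have : s = t := by
      rcases lt_trichotomy s.length t.length with c | c | c
      · exact (noComm hT hβ hs1 c b hst).elim
      · exact (List.append_inj hst c).1
      · exact (noComm hT hα ht1 c a hst.symm).elim
    subst this
    exact ⟨Or.inl rfl, Or.inl rfl⟩
  · exact (shortLong hT hβ hs1 a b (pre_take hs ht hL n le_rfl (by omega))).elim
  · exact (shortLong hT hα ht1 b a (pre_take hs ht hL n le_rfl (by omega)).symm).elim
  · exact longLong (by omega) hT hα hβ a b (pre_take hs ht hL n le_rfl (by omega))
      (suf_drop hT hs ht hR n le_rfl (by omega))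

end Pool.Agent.X41.GR
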